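import Pool.Agent.P.MP_79bc23_co.Tour

/-!
Ordered sets in which every element has a chain cutset have bounded width.
-/

namespace Pool.Agent.Results.MP_79bc23_co.BoundedWidth

universe u

/-- A cutset of `P`: a subset meeting every maximal chain of `P`. -/
def IsCutset {P : Type u} [PartialOrder P] (S : Set P) : Prop :=
  ∀ C : Set P, IsMaxChain (· ≤ ·) C → (S ∩ C).Nonempty

/-- A cutset for `x`: every element of `K` is incomparable to `x` and `K ∪ {x}` is a cutset. -/
def IsCutsetFor {P : Type u} [PartialOrder P] (x : P) (K : Set P) : Prop :=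
  (∀ k ∈ K, ¬ k ≤ x ∧ ¬ x ≤ k) ∧ IsCutset (K ∪ {x})

/-- A chain cutset for `x`: a cutset for `x` that is a chain. -/
def IsChainCutsetFor {P : Type u} [PartialOrder P] (x : P) (K : Set P) : Prop :=
  IsCutsetFor x K ∧ IsChain (· ≤ ·) K

open Pool.Agent.P.MP_79bc23_co

theorem result :
    ∃ N : ℕ, ∀ (P : Type u) [PartialOrder P], (∀ x : P, ∃ K : Set P, IsChainCutsetFor x K) →
      ∀ A : Set P, IsAntichain (· ≤ ·) A → A.encard ≤ N := by
  obtain ⟨N, hN⟩ := bound.{u}
  refine ⟨N, fun P _ h A hA => ?_⟩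
  choose K hK using h
  have hS : Sys K :=
    { nle := fun hk => ((hK _).1.1 _ hk).1
      nge := fun hk => ((hK _).1.1 _ hk).2
      ch := fun h1 h2 => (hK _).2.total h1 h2
      cut := fun x C hC c hc h1 h2 => by
        obtain ⟨M, hM, hCM⟩ := IsChain.exists_maxChain (r := (· ≤ ·)) (c := C)
          fun a ha b hb _ => hC a ha b hb
        obtain ⟨k, hk | hk, hkM⟩ := (hK x).1.2 M hM
        · exact ⟨k, hk, fun d hd => hM.isChain.total hkM (hCM hd)⟩
        · rw [Set.mem_singleton_iff.1 hk] at hkM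
          exact absurd (hM.isChain.total hkM (hCM hc)) (not_or.2 ⟨h2, h1⟩) }
  by_contra hlt
  obtain ⟨B, hBA, hB⟩ := Set.exists_subset_encard_eq (not_le.1 hlt).le
  have hf : B.Finite := Set.finite_of_encard_eq_coe hB
  have hc : hf.toFinset.card = N := by
    rw [hf.encard_eq_coe_toFinset_card] at hB
    exact_mod_cast hB
  let e := (hf.toFinset.equivFinOfCardEq hc).symm
  exact hN P K hS (fun i => e i) fun i j hij =>
    hA (hBA (hf.mem_toFinset.1 (e i).2)) (hBA (hf.mem_toFinset.1 (e j).2))
      fun h => hij (e.injective (Subtype.ext h))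

end Pool.Agent.Results.MP_79bc23_co.BoundedWidth
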