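import Mathlib

/-!
A counterexample to the Ginsburg-Rival-Sands conjecture on chain cutsets:
a 15-element ordered set in which every element has a chain cutset and which
contains an antichain of five elements.
-/

namespace Pool.Agent.Results.MP_79bc23_co.WidthFive

/-- A cutset of `P`: a subset meeting every maximal chain of `P`. -/
def IsCutset {P : Type} [PartialOrder P] (S : Set P) : Prop :=
  ∀ C : Set P, IsMaxChain (· ≤ ·) C → (S ∩ C).Nonempty

/-- A cutset for `x`: every element of `K` is incomparable to `x` and `K ∪ {x}` is a cutset. -/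
def IsCutsetFor {P : Type} [PartialOrder P] (x : P) (K : Set P) : Prop :=
  (∀ k ∈ K, ¬ k ≤ x ∧ ¬ x ≤ k) ∧ IsCutset (K ∪ {x})

/-- A chain cutset for `x`: a cutset for `x` that is a chain. -/
def IsChainCutsetFor {P : Type} [PartialOrder P] (x : P) (K : Set P) : Prop :=
  IsCutsetFor x K ∧ IsChain (· ≤ ·) K

/-- Up-sets of the example: `j` is listed in row `i` iff `i ≤ j`. -/
def up : Fin 15 → List (Fin 15) :=
  ![[0, 2, 3, 4, 6, 7, 8, 9, 10, 11, 12, 13, 14], [1, 2, 3, 5, 6, 7, 10, 11, 12, 13, 14],
    [2, 3, 6, 7, 11, 12, 13, 14], [3, 6, 7, 12, 13, 14], [4, 8, 9, 10, 11, 12, 13, 14],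
    [5, 10, 11, 13, 14], [6, 13], [7, 12, 14], [8, 12, 14], [9, 10, 11, 13, 14],
    [10, 11, 13, 14], [11, 13, 14], [12, 14], [13], [14]]

/-- The chain cutsets of the example. -/
def cut : Fin 15 → List (Fin 15) :=
  ![[1], [0, 9], [4, 9, 10], [4, 9, 11], [1, 2, 6], [0, 2, 12], [4, 10, 11, 14],
    [4, 10, 11, 13], [1, 2, 11, 13], [1, 2, 7, 12], [2, 12], [3, 12], [9, 10, 11, 13],
    [14], [13]]

/-- The order relation of the example, as a Boolean. -/
def leB (i j : Fin 15) : Bool := (up i).contains j

theorem leB_refl : ∀ i, leB i i = true := by decide +kernel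
theorem leB_trans : ∀ i j k, leB i j = true → leB j k = true → leB i k = true := by
  decide +kernel
theorem leB_antisymm : ∀ i j, leB i j = true → leB j i = true → i = j := by decide +kernel
theorem cut_incomp : ∀ x k, k ∈ cut x → leB k x = false ∧ leB x k = false := by decide +kernel
theorem cut_chain : ∀ x a b, a ∈ cut x → b ∈ cut x → leB a b = true ∨ leB b a = true := by
  decide +kernel

/-- All elements, as a list. -/
def allE : List (Fin 15) := [0, 1, 2, 3, 4, 5, 6, 7, 8, 9, 10, 11, 12, 13, 14]

theorem mem_allE : ∀ i, i ∈ allE := by decide +kernel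

/-- The check on a subset coded by `f`: if it is a maximal chain, it meets every `cut x ∪ {x}`. -/
def chk (f : Fin 15 → Bool) : Bool :=
  !(allE.all fun a => !f a || allE.all fun b => !f b || leB a b || leB b a) ||
  !(allE.all fun z => f z || allE.any fun a => f a && !(leB a z || leB z a)) ||
  (allE.all fun x => f x || (cut x).any f)

theorem chk_all : ∀ b0 b1 b2 b3 b4 b5 b6 b7 b8 b9 b10 b11 b12 b13 b14 : Bool,
    chk ![b0, b1, b2, b3, b4, b5, b6, b7, b8, b9, b10, b11, b12, b13, b14] = true := by
  decide +kernel

theorem chk_fun (f : Fin 15 → Bool) : chk f = true := by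
  have h : f = ![f 0, f 1, f 2, f 3, f 4, f 5, f 6, f 7, f 8, f 9, f 10, f 11, f 12, f 13,
      f 14] := by
    funext i
    fin_cases i <;> rfl
  rw [h]
  exact chk_all _ _ _ _ _ _ _ _ _ _ _ _ _ _ _

/-- The carrier of the example. -/
structure Ex where
  /-- the index -/
  val : Fin 15

/-- The order of the example. -/
@[reducible] def exOrder : PartialOrder Ex where
  le a b := leB a.val b.val = true
  le_refl a := leB_refl a.val
  le_trans a b c := leB_trans a.val b.val c.val
  le_antisymm a b h1 h2 := by
    cases a
    cases b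
    exact congrArg Ex.mk (leB_antisymm _ _ h1 h2)

theorem result :
    ∃ (P : Type) (_ : PartialOrder P), Finite P ∧
      (∀ x : P, ∃ K : Set P, IsChainCutsetFor x K) ∧
      ∃ A : Finset P, A.card = 5 ∧ IsAntichain (· ≤ ·) (A : Set P) := by
  classical
  let _ : PartialOrder Ex := exOrder
  have hle : ∀ a b : Ex, a ≤ b ↔ leB a.val b.val = true := fun _ _ => Iff.rfl
  refine ⟨Ex, exOrder, ?_, fun x => ⟨{k | k.val ∈ cut x.val}, ⟨?_, ?_⟩, ?_⟩, ?_⟩
  · exact Finite.of_surjective Ex.mk (fun a => ⟨a.val, rfl⟩)
  · intro k hk
    have := cut_incomp x.val k.val hk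
    simp [hle, this.1, this.2]
  · intro C hC
    have h := chk_fun (fun i => decide (Ex.mk i ∈ C))
    have h1 : (allE.all fun a => !decide (Ex.mk a ∈ C) || allE.all fun b =>
        !decide (Ex.mk b ∈ C) || leB a b || leB b a) = true := by
      simp only [List.all_eq_true, Bool.or_eq_true, Bool.not_eq_true', decide_eq_false_iff_not]
      intro a _
      by_cases ha : Ex.mk a ∈ C
      · right
        intro b _
        by_cases hb : Ex.mk b ∈ C
        · by_cases hab : a = b
          · subst hab
            exact Or.inr (leB_refl a)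
          · have hne : Ex.mk a ≠ Ex.mk b := fun e => hab (congrArg Ex.val e)
            rcases hC.1 ha hb hne with h | h
            · exact Or.inl (Or.inr h)
            · exact Or.inr h
        · exact Or.inl (Or.inl hb)
      · exact Or.inl ha
    have h2 : (allE.all fun z => decide (Ex.mk z ∈ C) || allE.any fun a =>
        decide (Ex.mk a ∈ C) && !(leB a z || leB z a)) = true := by
      simp only [List.all_eq_true, Bool.or_eq_true, decide_eq_true_eq, List.any_eq_true,
        Bool.and_eq_true, Bool.not_eq_true']
      intro z _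
      by_cases hz : Ex.mk z ∈ C
      · exact Or.inl hz
      · right
        by_contra hcon
        apply hz
        have hins : IsChain (· ≤ ·) (insert (Ex.mk z) C) := by
          refine hC.1.insert ?_
          intro a ha _
          by_contra hn
          apply hcon
          refine ⟨a.val, mem_allE _, ha, ?_⟩
          rw [not_or] at hn
          have e1 : leB z a.val = false := by simpa [hle] using hn.1
          have e2 : leB a.val z = false := by simpa [hle] using hn.2
          simp [e1, e2]
        have := hC.2 hins (Set.subset_insert _ _)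
        rw [this]
        exact Set.mem_insert _ _
    unfold chk at h
    simp only [h1, h2, Bool.not_true, Bool.false_or, List.all_eq_true, Bool.or_eq_true,
      decide_eq_true_eq, List.any_eq_true] at h
    rcases h x.val (mem_allE _) with hx | ⟨k, hk, hkC⟩
    · exact ⟨x, Or.inr rfl, hx⟩
    · exact ⟨Ex.mk k, Or.inl hk, hkC⟩
  · intro a ha b hb _
    exact cut_chain x.val a.val b.val ha hb
  · refine ⟨(({5, 6, 7, 8, 9} : Finset (Fin 15)).map ⟨Ex.mk, fun a b h => congrArg Ex.val h⟩),
      by simp only [Finset.card_map]; decide, ?_⟩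
    have key : ∀ a ∈ ({5, 6, 7, 8, 9} : Finset (Fin 15)), ∀ b ∈ ({5, 6, 7, 8, 9} : Finset (Fin 15)),
        a ≠ b → leB a b = false := by decide +kernel
    intro a ha b hb hab
    simp only [Finset.coe_map, Set.mem_image, Finset.mem_coe] at ha hb
    obtain ⟨a', ha', rfl⟩ := ha
    obtain ⟨b', hb', rfl⟩ := hb
    have hk := key a' ha' b' hb' (fun e => hab (congrArg Ex.mk e))
    intro h
    have h' : leB a' b' = true := h
    rw [hk] at h'
    exact Bool.false_ne_true h'

end Pool.Agent.Results.MP_79bc23_co.WidthFive
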